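import Pool.Agent.L7h71.GD.Stm

/-!
# Part TRL of project GD (helper75)
-/

set_option autoImplicit false

namespace Pool.Agent.L7h75.GD

open Set Function FirstOrder FirstOrder.Language
open Pool.Agent.L7h71.GB (pt)
open Pool.Agent.L7h71.GC (Gen G1 TopP FGs tr)
open Pool.Agent.L7h71.GD

section

variable {L : FirstOrder.Language.{0, 0}} [S : L.Structure ℕ]

/-- the values of the terms in the points `v i` are in the substructure generated by them -/
theorem mem_of_gen (v : ℕ → ℕ) (p : ℕ) (h : Gen S v p) :
    p ∈ Substructure.closure L (Set.range v) := by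
  obtain ⟨t, rfl⟩ := h
  induction t with
  | var i => exact Substructure.subset_closure ⟨i, rfl⟩
  | @func n F ts ih =>
    exact (Substructure.closure L (Set.range v)).fun_mem F _ fun j => ih j

theorem gen_of_mem (v : ℕ → ℕ) (p : ℕ) (h : p ∈ Substructure.closure L (Set.range v)) :
    Gen S v p := by
  rw [Substructure.mem_closure_iff_exists_term] at h
  obtain ⟨t, ht⟩ := h
  choose g hg using fun x : Set.range v => x.2
  refine ⟨t.relabel g, ?_⟩
  show Term.realize v (t.relabel g) = p
  rw [Term.realize_relabel]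
  rw [← ht]
  congr 1
  funext x
  exact hg x

theorem gen_iff (v : ℕ → ℕ) (p : ℕ) : Gen S v p ↔ p ∈ Substructure.closure L (Set.range v) :=
  ⟨mem_of_gen v p, gen_of_mem v p⟩

theorem g1_iff (y p : ℕ) : G1 S y p ↔ p ∈ Substructure.closure L {y} := by
  unfold G1
  rw [gen_iff]
  have : Set.range (fun _ : ℕ => y) = {y} := by
    ext x
    constructor
    · rintro ⟨_, rfl⟩; rfl
    · rintro rfl; exact ⟨0, rfl⟩
  rw [this]

theorem le_iff (y z : ℕ) : Substructure.closure L {y} ≤ Substructure.closure L {z} ↔
    G1 S z y := by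
  rw [g1_iff, Substructure.closure_le, Set.singleton_subset_iff]
  exact Iff.rfl

theorem fgs (h : Structure.FG L ℕ) : FGs S := by
  obtain ⟨X, hX⟩ := (Structure.fg_def).1 h
  refine ⟨0 :: X.toList, by simp, fun p => ?_⟩
  rw [gen_iff]
  have hp : p ∈ Substructure.closure L (X : Set ℕ) := by
    rw [hX]; exact Substructure.mem_top p
  refine Substructure.closure_mono ?_ hp
  intro x hx
  have hx' : x ∈ 0 :: X.toList := List.mem_cons_of_mem _ (Finset.mem_toList.2 hx)
  obtain ⟨n, hn, hxn⟩ := List.getElem_of_mem hx'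
  refine ⟨n, ?_⟩
  unfold pt
  rw [List.getD_eq_getElem _ _ hn, hxn]

theorem union_closure (h : ∀ (A B : L.Substructure ℕ) (x : ℕ), x ∈ A ⊔ B → x ∈ A ∨ x ∈ B)
    (s : Finset ℕ) : ∀ p, p ∈ Substructure.closure L (s : Set ℕ) →
      (∃ x ∈ s, p ∈ Substructure.closure L {x}) ∨ p ∈ Substructure.closure L (∅ : Set ℕ) := by
  induction s using Finset.induction_on with
  | empty =>
    intro p hp
    right
    simpa using hp
  | insert a s ha ih =>
    intro p hp
    rw [Finset.coe_insert, Set.insert_eq, Substructure.closure_union] at hp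
    rcases h _ _ _ hp with h1 | h1
    · exact Or.inl ⟨a, Finset.mem_insert_self _ _, h1⟩
    · rcases ih p h1 with ⟨x, hx, h2⟩ | h2
      · exact Or.inl ⟨x, Finset.mem_insert_of_mem hx, h2⟩
      · exact Or.inr h2

theorem disF (h : Disg L) : DisF S := by
  refine ⟨?_, ?_⟩
  · intro v p hp
    obtain ⟨m, hm⟩ : ∃ s : Finset ℕ, (s : Set ℕ) ⊆ Set.range v ∧
        p ∈ Substructure.closure L (s : Set ℕ) := by
      obtain ⟨t, rfl⟩ := hp
      induction t with
      | var i => exact ⟨{v i}, by simp, Substructure.subset_closure (by simp; rfl)⟩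
      | @func n F ts ih =>
        choose s hs1 hs2 using ih
        classical
        refine ⟨Finset.univ.biUnion s, ?_, ?_⟩
        · intro x hx
          rw [Finset.mem_coe, Finset.mem_biUnion] at hx
          obtain ⟨j, -, hj⟩ := hx
          exact hs1 j hj
        · refine (Substructure.closure L _).fun_mem F _ fun j => ?_
          refine Substructure.closure_mono ?_ (hs2 j)
          intro x hx
          rw [Finset.mem_coe, Finset.mem_biUnion]
          exact ⟨j, Finset.mem_univ j, hx⟩
    rcases union_closure h.1 m p hm.2 with ⟨x, hx, h2⟩ | h2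
    · obtain ⟨i, rfl⟩ := hm.1 hx
      exact ⟨i, (g1_iff _ _).2 h2⟩
    · exact ⟨0, (g1_iff _ _).2 (Substructure.closure_mono (Set.empty_subset _) h2)⟩
  · intro x
    obtain ⟨y, h1, h2, h3⟩ := h.2 x
    refine ⟨y, (g1_iff _ _).2 h1, ?_, ?_⟩
    · intro z hz
      have := h2 z ((le_iff y z).2 hz)
      exact (le_iff z y).1 this.le
    · refine h3.subset ?_
      rintro z ⟨hz1, hz2⟩
      exact le_antisymm ((le_iff z y).2 hz1) ((le_iff y z).2 hz2)

end

/-- part TRL -/
theorem s_TRL : S_TRL := by
  intro L S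
  exact ⟨fun h => fgs h, fun h => disF h⟩

end Pool.Agent.L7h75.GD
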